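import Pool.Agent.helper35.SC.LA1

/-!
Module LA2 of the project MP_d2d7b9_gt: positivity of mixed discriminants.
-/

open scoped Pointwise ContDiff

namespace Pool.Agent.helper83.SC

theorem LA2_rank_one {m : ℕ} (v : Fin m → Fin m → ℝ) :
    mD (fun j => Matrix.vecMulVec (v j) (v j)) = (1 / (m.factorial : ℝ)) * (Matrix.of v).det ^ 2 := by
  unfold mD
  congr 1
  have h1 : ∀ σ : Equiv.Perm (Fin m),
      (Matrix.of fun i j => Matrix.vecMulVec (v (σ i)) (v (σ i)) i j).det
        = ((Equiv.Perm.sign σ : ℤ) : ℝ) * (∏ i, (Matrix.of v) (σ i) i) * (Matrix.of v).det := by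
    intro σ
    have h2 := Matrix.det_mul_column (fun i : Fin m => v (σ i) i)
      (Matrix.of fun i k => v (σ i) k)
    have h3 : (Matrix.of fun i j => Matrix.vecMulVec (v (σ i)) (v (σ i)) i j)
        = Matrix.of fun i j => (fun i : Fin m => v (σ i) i) i
          * (Matrix.of fun i k => v (σ i) k) i j := by
      ext i k
      rfl
    rw [h3, h2]
    have h4 : (Matrix.of fun i k => v (σ i) k) = (Matrix.of v).submatrix σ id := by
      ext i k; rfl
    rw [h4, Matrix.det_permute]
    simp only [Matrix.of_apply]
    ring
  rw [Finset.sum_congr rfl (fun σ _ => h1 σ), ← Finset.sum_mul, ← Matrix.det_apply', sq]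

theorem LA2_map_sum {m : ℕ} {α : Type} [Fintype α] (g : Fin m → α → Matrix (Fin m) (Fin m) ℝ) :
    mD (fun j => ∑ a, g j a) = ∑ c : Fin m → α, mD (fun j => g j (c j)) := by
  classical
  rw [← LA1_mDL_apply, MultilinearMap.map_sum]
  exact Finset.sum_congr rfl (fun c _ => LA1_mDL_apply _)

open scoped MatrixOrder in
theorem LA2_psd_sum {m : ℕ} {M : Matrix (Fin m) (Fin m) ℝ} (hM : M.PosSemidef) :
    ∃ B : Matrix (Fin m) (Fin m) ℝ, M = ∑ a, Matrix.vecMulVec (B a) (B a) := by
  obtain ⟨B, hB⟩ := CStarAlgebra.nonneg_iff_eq_star_mul_self.mp hM.nonneg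
  refine ⟨B, ?_⟩
  rw [hB]
  ext i k
  rw [Matrix.mul_apply, Matrix.sum_apply]
  refine Finset.sum_congr rfl (fun a _ => ?_)
  simp [Matrix.vecMulVec_apply]

theorem mD_nonneg_of : mD_nonneg_stmt := by
  intro m M hM
  choose B hB using fun j => LA2_psd_sum (hM j)
  have h1 : M = fun j => ∑ a, Matrix.vecMulVec (B j a) (B j a) := by
    funext j; exact hB j
  rw [h1, LA2_map_sum]
  refine Finset.sum_nonneg (fun c _ => ?_)
  rw [LA2_rank_one (fun j => B j (c j))]
  positivity

theorem mD_mono_of : mD_mono_stmt := by
  intro m M N hM hN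
  have hNp : ∀ j, (N j).PosSemidef := by
    intro j
    have := (hM j).add (hN j)
    rwa [add_sub_cancel] at this
  have key : ∀ s : Finset (Fin m), mD M ≤ mD (fun j => if j ∈ s then N j else M j) := by
    intro s
    induction s using Finset.induction_on with
    | empty => simp
    | insert i s hi ih =>
      have h1 : (fun j => if j ∈ insert i s then N j else M j)
          = Function.update (fun j => if j ∈ s then N j else M j) i (M i + (N i - M i)) := by
        funext j
        by_cases hj : j = i
        · subst hj; simp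
        · rw [Function.update_of_ne hj]
          simp [Finset.mem_insert, hj]
      have h2 : Function.update (fun j => if j ∈ s then N j else M j) i (M i)
          = fun j => if j ∈ s then N j else M j := by
        funext j
        by_cases hj : j = i
        · subst hj; simp [hi]
        · rw [Function.update_of_ne hj]
      rw [h1, mD_update_add_of, h2]
      have h3 : 0 ≤ mD (Function.update (fun j => if j ∈ s then N j else M j) i (N i - M i)) := by
        apply mD_nonneg_of
        intro j
        by_cases hj : j = i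
        · subst hj; rw [Function.update_self]; exact hN j
        · rw [Function.update_of_ne hj]
          split_ifs
          · exact hNp j
          · exact hM j
      linarith
  have := key Finset.univ
  simpa using this

theorem mD_le_det_of : mD_le_det_stmt := by
  intro m M hM
  have h1 : (∑ j, M j).det = ∑ c : Fin m → Fin m, mD (fun j => M (c j)) := by
    rw [← mD_diag_of, LA2_map_sum]
  rw [h1]
  have h2 : (m.factorial : ℝ) * mD M = ∑ σ : Equiv.Perm (Fin m), mD (fun j => M (σ j)) := by
    rw [Finset.sum_congr rfl (fun σ _ => mD_perm_of M σ), Finset.sum_const, Finset.card_univ,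
      Fintype.card_perm, Fintype.card_fin, nsmul_eq_mul]
  rw [h2]
  let emb : Equiv.Perm (Fin m) ↪ (Fin m → Fin m) := ⟨fun σ => ⇑σ, DFunLike.coe_injective⟩
  have h3 : ∑ σ : Equiv.Perm (Fin m), mD (fun j => M (σ j))
      = ∑ c ∈ Finset.univ.map emb, mD (fun j => M (c j)) := by
    rw [Finset.sum_map]; rfl
  rw [h3]
  refine Finset.sum_le_sum_of_subset_of_nonneg (Finset.subset_univ _) (fun c _ _ => ?_)
  exact mD_nonneg_of (fun j => hM (c j))

end Pool.Agent.helper83.SC
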