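import Pool.Agent.helper83.SC.Stmt

/-!
Module LA1 of the project MP_d2d7b9_gt: polarization of the determinant.
-/

open scoped Pointwise ContDiff

namespace Pool.Agent.helper83.SC

/-- The determinant with row `i` taken from the matrix with index `σ i`, as a multilinear map. -/
noncomputable def LA1_L {m : ℕ} (σ : Equiv.Perm (Fin m)) :
    MultilinearMap ℝ (fun _ : Fin m => Matrix (Fin m) (Fin m) ℝ) ℝ :=
  (((Matrix.detRowAlternating (n := Fin m) (R := ℝ)).toMultilinearMap).compLinearMap
    (fun i => (LinearMap.proj i : (Fin m → Fin m → ℝ) →ₗ[ℝ] (Fin m → ℝ)))).domDomCongr σ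

theorem LA1_L_apply {m : ℕ} (σ : Equiv.Perm (Fin m)) (M : Fin m → Matrix (Fin m) (Fin m) ℝ) :
    LA1_L σ M = (Matrix.of fun i j => M (σ i) i j).det := rfl

/-- The mixed discriminant as a multilinear map. -/
noncomputable def LA1_mDL (m : ℕ) :
    MultilinearMap ℝ (fun _ : Fin m => Matrix (Fin m) (Fin m) ℝ) ℝ :=
  (1 / (m.factorial : ℝ)) • ∑ σ : Equiv.Perm (Fin m), LA1_L σ

theorem LA1_mDL_apply {m : ℕ} (M : Fin m → Matrix (Fin m) (Fin m) ℝ) : LA1_mDL m M = mD M := by
  unfold LA1_mDL mD
  rw [smul_apply, sum_apply, smul_eq_mul]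
  rfl

theorem mD_update_add_of : mD_update_add_stmt := by
  intro m M i X Y
  rw [← LA1_mDL_apply, ← LA1_mDL_apply, ← LA1_mDL_apply]
  exact (LA1_mDL m).map_update_add M i X Y

theorem mD_update_smul_of : mD_update_smul_stmt := by
  intro m M i c X
  rw [← LA1_mDL_apply, ← LA1_mDL_apply]
  exact (LA1_mDL m).map_update_smul M i c X

theorem mD_perm_of : mD_perm_stmt := by
  intro m M σ
  unfold mD
  congr 1
  exact Fintype.sum_equiv (Equiv.mulLeft σ) _ _ (fun τ => rfl)

theorem mD_diag_of : mD_diag_stmt := by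
  intro m G
  unfold mD
  have h : ∀ σ : Equiv.Perm (Fin m),
      (Matrix.of fun i j => (fun _ : Fin m => G) (σ i) i j).det = G.det := fun σ => rfl
  rw [Finset.sum_congr rfl (fun σ _ => h σ), Finset.sum_const, Finset.card_univ,
    Fintype.card_perm, Fintype.card_fin, nsmul_eq_mul, ← mul_assoc, one_div,
    inv_mul_cancel₀ (by exact_mod_cast Nat.factorial_ne_zero m), one_mul]

/-- the matrices, indexed by `none` (for `G`) and `some j` (for `M j`) -/
def LA1_N {m : ℕ} (G : Matrix (Fin m) (Fin m) ℝ) (M : Fin m → Matrix (Fin m) (Fin m) ℝ) :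
    Option (Fin m) → Matrix (Fin m) (Fin m) ℝ
  | none => G
  | some j => M j

/-- weights -/
def LA1_w {m : ℕ} (J : Finset (Fin m)) : Option (Fin m) → ℝ
  | none => 1
  | some j => if j ∈ J then 1 else 0

/-- values of a choice -/
def LA1_S {m : ℕ} (c : Fin m → Option (Fin m)) : Finset (Fin m) :=
  Finset.univ.filter (fun j => ∃ i, c i = some j)

theorem LA1_prod_w {m : ℕ} (J : Finset (Fin m)) (c : Fin m → Option (Fin m)) :
    ∏ i, LA1_w J (c i) = if LA1_S c ⊆ J then 1 else 0 := by
  split_ifs with h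
  · apply Finset.prod_eq_one
    intro i _
    cases hc : c i with
    | none => rfl
    | some j =>
      have : j ∈ LA1_S c := by
        simp only [LA1_S, Finset.mem_filter, Finset.mem_univ, true_and]; exact ⟨i, hc⟩
      simp only [LA1_w, if_pos (h this)]
  · rw [Finset.not_subset] at h
    obtain ⟨j, hj, hjJ⟩ := h
    simp only [LA1_S, Finset.mem_filter, Finset.mem_univ, true_and] at hj
    obtain ⟨i, hi⟩ := hj
    apply Finset.prod_eq_zero (Finset.mem_univ i)
    rw [hi]
    simp only [LA1_w, if_neg hjJ]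

theorem LA1_expand {m : ℕ} (G : Matrix (Fin m) (Fin m) ℝ) (M : Fin m → Matrix (Fin m) (Fin m) ℝ)
    (J : Finset (Fin m)) :
    (G + ∑ j ∈ J, M j).det = ∑ c : Fin m → Option (Fin m),
      (if LA1_S c ⊆ J then 1 else 0) * (Matrix.of fun i j => LA1_N G M (c i) i j).det := by
  have h1 : (G + ∑ j ∈ J, M j) = (fun i => ∑ o : Option (Fin m), LA1_w J o • LA1_N G M o i :
      Fin m → Fin m → ℝ) := by
    funext i k
    rw [Fintype.sum_option]
    simp only [LA1_w, LA1_N, one_smul, Matrix.add_apply, Pi.add_apply, Finset.sum_apply,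
      Matrix.sum_apply, Pi.smul_apply, smul_eq_mul, ite_mul, one_mul, zero_mul]
    rw [Finset.sum_ite_mem, Finset.univ_inter]
  have h2 := (Matrix.detRowAlternating (n := Fin m) (R := ℝ)).toMultilinearMap.map_sum
    (fun (i : Fin m) (o : Option (Fin m)) => LA1_w J o • LA1_N G M o i)
  have h3 : (G + ∑ j ∈ J, M j).det
      = (Matrix.detRowAlternating (n := Fin m) (R := ℝ)).toMultilinearMap
        (fun i => ∑ o : Option (Fin m), LA1_w J o • LA1_N G M o i) := by
    rw [← h1]; rfl
  rw [h3, h2]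
  refine Finset.sum_congr rfl (fun c _ => ?_)
  rw [MultilinearMap.map_smul_univ, LA1_prod_w, smul_eq_mul]
  rfl

theorem LA1_sign_sum {m : ℕ} (S : Finset (Fin m)) :
    ∑ J : Finset (Fin m), (-1 : ℝ) ^ (m - J.card) * (if S ⊆ J then 1 else 0)
      = if S = Finset.univ then 1 else 0 := by
  have h1 : ∑ J : Finset (Fin m), (-1 : ℝ) ^ (m - J.card) * (if S ⊆ J then (1 : ℝ) else 0)
      = ∑ K : Finset (Fin m), (-1 : ℝ) ^ K.card * (if K ⊆ Sᶜ then 1 else 0) := by
    refine Fintype.sum_equiv (Equiv.ofBijective compl compl_bijective) _ _ (fun J => ?_)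
    simp only [Equiv.ofBijective_apply]
    rw [Finset.card_compl, Fintype.card_fin]
    congr 1
    simp only [Finset.compl_subset_compl]
  rw [h1]
  have h2 : ∑ K : Finset (Fin m), (-1 : ℝ) ^ K.card * (if K ⊆ Sᶜ then 1 else 0)
      = ∑ K ∈ (Sᶜ).powerset, (-1 : ℝ) ^ K.card := by
    rw [← Finset.sum_filter_add_sum_filter_not Finset.univ (fun K : Finset (Fin m) => K ⊆ Sᶜ)]
    have h3 : ∑ K ∈ Finset.univ.filter (fun K : Finset (Fin m) => ¬ K ⊆ Sᶜ),
        (-1 : ℝ) ^ K.card * (if K ⊆ Sᶜ then (1 : ℝ) else 0) = 0 := by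
      apply Finset.sum_eq_zero
      intro K hK
      rw [Finset.mem_filter] at hK
      rw [if_neg hK.2, mul_zero]
    rw [h3, add_zero]
    have h4 : Finset.univ.filter (fun K : Finset (Fin m) => K ⊆ Sᶜ) = (Sᶜ).powerset := by
      ext K; simp
    rw [h4]
    refine Finset.sum_congr rfl (fun K hK => ?_)
    rw [Finset.mem_powerset] at hK
    rw [if_pos hK, mul_one]
  rw [h2]
  have h5 := Finset.sum_powerset_neg_one_pow_card (x := Sᶜ)
  have h6 : ((∑ K ∈ (Sᶜ).powerset, (-1 : ℤ) ^ K.card : ℤ) : ℝ)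
      = ((if Sᶜ = ∅ then 1 else 0 : ℤ) : ℝ) := by rw [h5]
  push_cast at h6
  rw [h6]
  simp only [Finset.compl_eq_empty_iff]

theorem mD_polar_of : mD_polar_stmt := by
  intro m G M
  have h1 : ∑ J : Finset (Fin m), (-1 : ℝ) ^ (m - J.card) * (G + ∑ j ∈ J, M j).det
      = ∑ c : Fin m → Option (Fin m), (if LA1_S c = Finset.univ then 1 else 0)
        * (Matrix.of fun i j => LA1_N G M (c i) i j).det := by
    have h2 : ∀ J : Finset (Fin m), (-1 : ℝ) ^ (m - J.card) * (G + ∑ j ∈ J, M j).det
        = ∑ c : Fin m → Option (Fin m), ((-1 : ℝ) ^ (m - J.card) * (if LA1_S c ⊆ J then 1 else 0))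
          * (Matrix.of fun i j => LA1_N G M (c i) i j).det := by
      intro J
      rw [LA1_expand, Finset.mul_sum]
      exact Finset.sum_congr rfl (fun c _ => by ring)
    rw [Finset.sum_congr rfl (fun J _ => h2 J), Finset.sum_comm]
    refine Finset.sum_congr rfl (fun c _ => ?_)
    rw [← Finset.sum_mul, LA1_sign_sum]
  rw [h1]
  unfold mD
  rw [← mul_assoc, mul_one_div, div_self (by exact_mod_cast Nat.factorial_ne_zero m), one_mul]
  symm
  refine Fintype.sum_of_injective (fun (σ : Equiv.Perm (Fin m)) (i : Fin m) => some (σ i)) ?_ _ _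
    ?_ ?_
  · intro σ τ h
    refine Equiv.ext (fun i => ?_)
    have := congrFun h i
    exact Option.some_injective _ this
  · intro c hc
    rw [if_neg, zero_mul]
    intro hS
    apply hc
    have hex : ∀ j : Fin m, ∃ i, c i = some j := by
      intro j
      have : j ∈ LA1_S c := by rw [hS]; exact Finset.mem_univ j
      simpa [LA1_S] using this
    choose g hg using hex
    have hinj : Function.Injective g := by
      intro a b hab
      have h1 := hg a
      rw [hab, hg b] at h1
      exact (Option.some_injective _ h1).symm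
    have hbij : Function.Bijective g := Finite.injective_iff_bijective.1 hinj
    refine ⟨(Equiv.ofBijective g hbij).symm, ?_⟩
    funext i
    obtain ⟨j, rfl⟩ := hbij.2 i
    show some ((Equiv.ofBijective g hbij).symm (g j)) = c (g j)
    rw [hg j]
    congr 1
    exact (Equiv.ofBijective g hbij).symm_apply_apply j
  · intro σ
    have hS : LA1_S (fun i => some (σ i)) = Finset.univ := by
      ext j
      simp only [LA1_S, Finset.mem_filter, Finset.mem_univ, true_and, iff_true]
      exact ⟨σ.symm j, by simp⟩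
    simp only [hS, if_true, one_mul]
    rfl

end Pool.Agent.helper83.SC
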